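import Pool.Agent.K6.H21.LC.Main
import Pool.Agent.K6.H21.LC.Upper

/-!
# 2-to-1 games of value at most `δ` which pass the local consistency test of linear level and have
# only exponentially large resolution refutations
-/

open Pool.Agent.K6.H21.LC

namespace Pool.Agent.Results.MP_ec946a_lc.LinearLevels

/-- Games of value one pass the local consistency tests of all levels. For every `δ > 0` there are an
alphabet of size `q = O(log (1/δ) / δ)` and `c > 0` such that for all large `N` there is a 2-to-1 game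
on `N + N` vertices with the alphabet `Fin q` and with value at most `δ` which passes the local
consistency test of level `⌊c N⌋` and whose CNF has resolution refutations (of size
`2 ^ (4 q N + 1)`), but only of size at least `2 ^ (c N)`. -/
theorem result :
    (∀ (N q : ℕ) (G : Game N q), (∃ x y, numSat G x y = G.length) → ∀ k, KConsistent G k) ∧
    ∀ δ : ℝ, 0 < δ → δ < 1 → ∃ q : ℕ, (q : ℝ) ≤ 132 * (1 + Real.log (1 / δ)) / δ ∧
      ∃ c : ℝ, 0 < c ∧ ∃ N0 : ℕ, ∀ N : ℕ, N0 ≤ N → ∃ G : Game N q,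
        TwoToOne G ∧ Simple G ∧ 2 * G.length ≤ q * N ∧
        (∀ x y, (numSat G x y : ℝ) ≤ δ * G.length) ∧ KConsistent G ⌊c * N⌋₊ ∧
        (∃ L, IsRefutation (cnf G) L ∧ L.length ≤ 2 ^ (4 * q * N + 1)) ∧
        ∀ L, IsRefutation (cnf G) L → (2 : ℝ) ^ (c * N) ≤ L.length := by
  refine ⟨fun _ _ G h k => kConsistent_of_sat G h k, fun δ h0 h1 => ?_⟩
  obtain ⟨q, hq, c, hc, N0, h⟩ := main δ h0 h1.le
  refine ⟨q, hq, c, hc, N0, fun N hN => ?_⟩
  obtain ⟨G, g1, g2, g3, g4, g5, g6⟩ := h N hN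
  refine ⟨G, g1, g2, g3, g4, g5, ?_, g6⟩
  obtain ⟨L, hL, hLc⟩ := refutation_exists G (by
    rintro ⟨x, y, hxy⟩
    have h2 := g4 x y
    rw [hxy] at h2
    have h3 : 0 < G.length := List.length_pos_iff_ne_nil.2 g1.1
    have h4 : (0 : ℝ) < G.length := by exact_mod_cast h3
    nlinarith)
  refine ⟨L, hL, hLc.trans (le_of_eq ?_)⟩
  rw [show (16 : ℕ) = 2 ^ 4 by norm_num, ← pow_mul, pow_succ]
  ring

end Pool.Agent.Results.MP_ec946a_lc.LinearLevels
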