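import Pool.Agent.K6.H1.UG.NoiseTwo

/-!
# The 2-to-1 games conjecture with perfect completeness for circuits with noisy negations

A 2-to-1 game with vertex sets of size `N`, alphabet `[q]` and tagged constraints is a set `J` of
positions `((u, v, π), j)`: an edge from `u` to `v` with the constraint that `π` maps the label of `u`
to the label of `v`, and a tag `j < K` (the tag has no meaning). There is at most one edge for each
pair of vertices.

The model: randomised circuits (finite families) that read all the literals (the bits `e ∈ J` and
their negations `e ∉ J` for the positions `e`), with gates that compute arbitrary nondecreasing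
real functions of two arguments. There is no bound on the depth, and every circuit with AND, OR and
NOT gates takes this form if its size is doubled.

Noise: the bits `e ∈ J` are reliable, but each negated literal passes through a noisy channel,
independently of the others. The channel is arbitrary, except that for a constraint which does not
belong to the game both values occur. If the noise is uniform on `D` values then the probability of
an error may be as small as `1 / D`. Examples: each negated literal is flipped with probability
`1 / D`; each negated literal is stuck at `0` with probability `1 / D`.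

Result: for all `δ > 0` there is an alphabet size `q` such that for all large `N`, all `D` and all
`K ≥ 500 D N² q ^ q`, randomised circuits which accept the games of value at most `δ` with
probability at least `4 / 5`, and the games of value one with probability at most `1 / 5`, both in
the presence of the noise, need `2 ^ (N ^ (1 / 14)) - 1` gates.

The starting result `FaultyNegations` needs fewer tags, but it only treats literals that are stuck at
`0`, and it assumes that the games of value one are rejected with probability at least `3 / 4`
without faults. Here the circuits only have to be correct with large probability in the presence of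
the noise, and the noise is arbitrary. For unique games with perfect completeness the statement
fails, since propagation of labels is done by monotone circuits of polynomial size.

The proof hides the edges: each edge of a game without tags gets a random tag. In the tagged game the
place which an absent edge would get is hidden in the noise: if the noisy negation at this place is
drawn as if the edge belonged to the game then the joint distribution of the noise changes only by a
small distance in total variation (a second moment bound, `Pool.Agent.K6.H1.UG.hide_noise`). So all
negated literals can be replaced by random bits that do not depend on the game without tags; this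
gives a monotone randomised circuit, and the starting result `MonotoneCircuits` applies.
-/

set_option autoImplicit false

namespace Pool.Agent.Results.MP_ec946a_lc.NoisyNegations

open Finset H630VC

/-- The positions `((u, v, π), j)`: an edge from `u` to `v` with the tag `j` and the constraint that
`π` maps the label of `u` to the label of `v`. -/
abbrev Position (N q K : ℕ) : Type := (Fin N × Fin N × (Fin q → Fin q)) × Fin K

/-- The game `J` is a 2-to-1 game: it has at least one edge and at most one edge for each pair of
vertices, and the fibers of its constraints have at most two elements. -/
def TwoToOne {N q K : ℕ} (J : Finset (Position N q K)) : Prop :=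
  J.Nonempty ∧
  (∀ e ∈ J, ∀ e' ∈ J, e.1.1 = e'.1.1 → e.1.2.1 = e'.1.2.1 → e = e') ∧
  ∀ e ∈ J, ∀ b, (univ.filter fun a => e.1.2.2 a = b).card ≤ 2

/-- The labeling satisfies the edge. -/
def Satisfies {N q K : ℕ} (A B : Fin N → Fin q) (e : Position N q K) : Prop :=
  e.1.2.2 (A e.1.1) = B e.1.2.1

/-- 2-to-1 games of value one: some labeling satisfies all edges. -/
def ValueOne {N q K : ℕ} (J : Finset (Position N q K)) : Prop :=
  TwoToOne J ∧ ∃ A B : Fin N → Fin q, ∀ e ∈ J, Satisfies A B e

open Classical in
/-- 2-to-1 games of value at most `δ`: every labeling satisfies at most the fraction `δ` of the
edges. -/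
def ValueAtMost {N q K : ℕ} (δ : ℝ) (J : Finset (Position N q K)) : Prop :=
  TwoToOne J ∧ ∀ A B : Fin N → Fin q,
    ((J.filter fun e => Satisfies A B e).card : ℝ) ≤ δ * J.card

/-- The noisy literals of the game `J`, for the noise `z`. The literal `(e, true)` says that `e`
belongs to `J`. The literal `(e, false)` is the value which the channel `A` makes of the negation,
`A (z e) b` where `b` tells whether `e` does not belong to `J`. -/
def noisyLiterals {N q K D : ℕ} (A : Fin D → Bool → Bool) (J : Finset (Position N q K))
    (z : Position N q K → Fin D) : Position N q K × Bool → Bool :=
  fun p => if p.2 = true then decide (p.1 ∈ J) else A (z p.1) (decide (p.1 ∉ J))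

/-- The inputs of circuits on literals: the values (`0` or `1`) of the literals and the constants. -/
def litInputs (E : Type) : Set ((E × Bool → Bool) → ℝ) :=
  {h | (∃ p, h = fun y => if y p = true then 1 else 0) ∨ ∃ c : ℝ, h = fun _ => c}

/-- A circuit on the literals of the positions. Its gates are input gates (literals or constants)
and gates that apply an arbitrary nondecreasing function of two real arguments to the values of
earlier gates (`Prog`); `gates` is the list of the functions computed at the gates. The circuit
accepts if the value of the gate `out` is at least `θ`. -/
structure Circuit (N q K : ℕ) where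
  gates : List ((Position N q K × Bool → Bool) → ℝ)
  prog : Prog (litInputs (Position N q K)) gates
  out : (Position N q K × Bool → Bool) → ℝ
  mem : out ∈ gates
  θ : ℝ

/-- The circuit accepts the values `y` of the literals. -/
def Circuit.Accepts {N q K : ℕ} (C : Circuit N q K) (y : Position N q K × Bool → Bool) : Prop :=
  C.θ ≤ C.out y

/-- The probability that the game `J` is accepted by a circuit that is chosen uniformly at random
from the family `C`, if the negated literals pass through the channel `A` with independent uniform
noise (each position `e` gets a random number `z e` from `0` to `D - 1`). -/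
noncomputable def noisyAcceptance {N q K D : ℕ} {R : Type} (C : R → Circuit N q K)
    (A : Fin D → Bool → Bool) (J : Finset (Position N q K)) : ℝ :=
  (Nat.card {v : R × (Position N q K → Fin D) // (C v.1).Accepts (noisyLiterals A J v.2)} : ℝ) /
    Nat.card (R × (Position N q K → Fin D))

/-- For every `δ > 0` there are `q ≥ 1` and `N0` such that for all `N ≥ N0`, all `D` and all
`K ≥ max (1, 500 D N² q ^ q)` the following holds. Let `A` be a channel with noise from
`{0, ..., D - 1}` such that both values occur for the noisy negation at a position that does not
belong to the game, and let `C` be a randomised circuit (a finite nonempty family) on the noisy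
literals of the 2-to-1 games with `N + N` vertices, alphabet `[q]` and tags `j < K`. If `C` accepts
every game of value at most `δ` with probability at least `4 / 5`, and every game of value one with
probability at most `1 / 5`, then some member of `C` has at least `2 ^ (N ^ (1 / 14)) - 1` gates. -/
theorem result (δ : ℝ) (hδ : 0 < δ) :
    ∃ q : ℕ, 1 ≤ q ∧ ∃ N0 : ℕ, ∀ N D K : ℕ, N0 ≤ N → 1 ≤ K → 500 * D * N ^ 2 * q ^ q ≤ K →
      ∀ A : Fin D → Bool → Bool, (∃ k, A k true = false) → (∃ k, A k true = true) →
      ∀ (R : Type) [Finite R] [Nonempty R] (C : R → Circuit N q K),
        (∀ J, ValueAtMost δ J → 4 / 5 ≤ noisyAcceptance C A J) →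
        (∀ J, ValueOne J → noisyAcceptance C A J ≤ 1 / 5) →
        ∃ ρ, (2 : ℝ) ^ ((N : ℝ) ^ (1 / 14 : ℝ)) ≤ (C ρ).gates.length + 1 := by
  classical
  obtain ⟨q, hq, N0, H⟩ := Pool.Agent.K6.H1.UG.NT.noisy_two δ hδ
  refine ⟨q, hq, N0, fun N D K hN hK hKD A hA0 hA1 R _ _ C h1 h2 => ?_⟩
  let _ : Fintype R := Fintype.ofFinite R
  have hD : 1 ≤ D := by
    obtain ⟨k, -⟩ := hA0
    exact Nat.one_le_iff_ne_zero.mpr (fun h => by subst h; exact k.elim0)
  have hR : (0 : ℝ) < Fintype.card R := by exact_mod_cast Fintype.card_pos
  have hDR : (0 : ℝ) < D := by exact_mod_cast hD
  have hpos : (0 : ℝ) < Fintype.card R *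
      (D : ℝ) ^ Fintype.card (Pool.Agent.K6.H1.UG.NT.Cn N q × Fin K) := by positivity
  have heq : ∀ J : Finset (Position N q K), noisyAcceptance C A J =
      ((univ.filter fun v : R × (Pool.Agent.K6.H1.UG.NT.Cn N q × Fin K → Fin D) =>
        (C v.1).θ ≤ (C v.1).out (Pool.Agent.K6.H1.UG.view A J v.2)).card : ℝ) /
      (Fintype.card R * (D : ℝ) ^ Fintype.card (Pool.Agent.K6.H1.UG.NT.Cn N q × Fin K)) := by
    intro J
    unfold noisyAcceptance
    rw [Nat.card_eq_fintype_card (α := R × (Position N q K → Fin D)), Fintype.card_prod,
      Fintype.card_fun, Fintype.card_fin, Nat.card_eq_fintype_card, Fintype.card_subtype]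
    push_cast
    congr 2
  refine H N D K hN hK hKD A hA0 hA1 R (fun ρ => (C ρ).gates) (fun ρ => (C ρ).prog)
    (fun ρ => (C ρ).out) (fun ρ => (C ρ).θ) (fun ρ => (C ρ).mem) (fun J hJ => ?_) (fun J hJ => ?_)
  · have h3 := h1 J ⟨hJ.1, fun f g => by
      have h4 := hJ.2 f g
      unfold Satisfies
      convert h4⟩
    rw [heq, le_div_iff₀ hpos] at h3
    exact h3
  · have h3 := h2 J ⟨hJ.1, hJ.2⟩
    rw [heq, div_le_iff₀ hpos] at h3
    exact h3

end Pool.Agent.Results.MP_ec946a_lc.NoisyNegations
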