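import Pool.Agent.K6.H49.TTO.Fin

/-!
# 2-to-1 games with perfect completeness stay NP-hard on graphs with arbitrarily good expansion

Definitions: `Pool/Agent/K6/H49/TTO/Defs.lean` (2-to-1 games, value, regularity, second singular
value) and `Pool/Agent/NPC/Defs.lean` (polynomial time, `NP`, the code `bits` of data).

The reduction starts from the gap version of 3SAT with bounded occurrences (PCP theorem, proved in
`Pool/Agent/H243R3/PCP`). A clause is a left vertex whose label names one of its literals; it is
joined to three choice bits by 2-to-1 constraints (the indicators of the three labels). A literal
is a left vertex with three labels (chosen and true; not chosen, variable true; not chosen,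
variable false), joined to its choice bit and to its variable. Every right vertex is copied `K`
times. To get a good expander without losing the perfect completeness one needs constraints which
do not restrict the labels `0` and `1`: a left cloud vertex copies the label of one right vertex
and is joined to many right hubs, with the label `0`, by constraints which both labels `0` and `1`
satisfy; the complete bipartite graph between the cloud vertices and the hubs makes the second
singular value small. With more than three labels, every constraint is doubled, and the two copies
map the additional labels in two different ways.
-/

namespace Pool.Agent.Results.MP_ec946a_lc.OnExpanders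

open Pool.Agent.NPC Pool.Agent.K6.H49.TTO

/-- There is `C > 0` such that for all `0 < σ ≤ 1` and all `q ≥ 3` every language in `NP` reduces in
polynomial time to 2-to-1 games with `q` labels on regular bipartite multigraphs with second
singular value at most `σ` times the degree, such that the words of the language are mapped to
games of value exactly `1`, and the other words to games of value at most `1 - σ⁴ / C`. -/
theorem result : ∃ C : ℝ, 0 < C ∧ ∀ σ : ℝ, 0 < σ → σ ≤ 1 → ∀ q : ℕ, 3 ≤ q →
    ∀ L : Set (List Bool), InNP L → ∃ f : List Bool → List Bool, PolyTime f ∧
      ∀ x, ∃ (G : Game) (d : ℕ), f x = bits G ∧ IsTwoToOne q G ∧ Regular G d ∧
        SecondLE G (σ * d) ∧ (x ∈ L → ValOne q G) ∧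
        (x ∉ L → ValLE q G (1 - σ ^ 4 / C)) :=
  main

end Pool.Agent.Results.MP_ec946a_lc.OnExpanders
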