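import Pool.Agent.K6.H49.TTS.Fin

/-!
# Satisfiable 2-to-1 games on expanders: the algorithm which matches the hardness

Definitions: `Pool/Agent/K6/H49/TTO/Defs.lean` (2-to-1 games, regularity, second singular value,
value), `Pool/Agent/K6/H49/UGQ/Defs.lean` (labelings given by lists of numbers) and
`Pool/Agent/NPC/Defs.lean` (polynomial time, the code `bits` of data).

The algorithm works with partial labelings of the right vertices. Let `(x, y)` be a labeling which
satisfies all constraints.

(1) A combination of boundedly many (in terms of `q`) columns of a power of `A Aᵀ`, where `A` is
the label-extended graph, gives labels which agree with `y` except at `n / 1000` right vertices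
(all combinations with small coefficients are tried).

(2) Forget the labels of all right vertices which see many left vertices with too many forgotten
neighbours, or which have another label supported by almost all neighbours. A left vertex supports
at most two labels, and if many right vertices are ambiguous then the two labels of almost all left
vertices are determined, so that at most `n / 20` labels are ever forgotten. At the end all labels
which are left are exactly those of `y`.

(3) Guess one more label and propagate (a right vertex with a unique possible label gets it). The
unknown vertices fall into parts which share no active neighbours, and the mixing lemma shows that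
for some guess at most `17 σ² n` right vertices remain unknown; then at most `1700 σ⁴ n` left
vertices have too many unknown neighbours.

(4) Choose any possible label for an unknown vertex, and propagate; this never goes wrong at the
other left vertices, since at a fixed point the two possible labels of all unknown vertices may be
exchanged simultaneously.
-/

namespace Pool.Agent.Results.MP_ec946a_lc.SharpOnExpanders

open Pool.Agent.NPC Pool.Agent.K6.H49.TTO Pool.Agent.K6.H49.UGQ

/-- There is `C > 0` such that for every `q ≥ 1` there is a polynomial-time algorithm which finds,
for every 2-to-1 game of value `1` with `q` labels on a regular bipartite multigraph of degree `d`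
with second singular value at most `σ d`, a labeling which satisfies at least the fraction
`1 - C σ⁴` of the constraints. -/
theorem result : ∃ C : ℝ, 0 < C ∧ ∀ (q : ℕ) [NeZero q],
    ∃ A : List Bool → List Bool, PolyTime A ∧
    ∀ (G : Game) (d : ℕ) (σ : ℝ), IsTwoToOne q G → Regular G d → 0 ≤ σ →
      SecondLE G (σ * d) → ValOne q G → ∃ w w' : List ℕ, A (bits G) = bits (w, w') ∧
        (1 - C * σ ^ 4) * G.2.length ≤ (numSat G (labq q w) (labq q w') : ℝ) :=
  Pool.Agent.K6.H49.TTS.threshold

end Pool.Agent.Results.MP_ec946a_lc.SharpOnExpanders
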